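import Pool.Agent.V11139.Paw

/-!
# Graphs that are 2-chromatically related but not 3-chromatically related

`F` is the paw and `G` is the disjoint union of the paw, `K₇` and the shift graph on 65 points.
-/

set_option autoImplicit false

namespace Pool.Agent.Results.MP_d44e62_co.TwoNotThree

open Pool.Agent.V11139.Paw

/-- **Answer: no.** It is not true that finite graphs `F`, `G` with at least two vertices each that
are `n`-chromatically related for some `n ≥ 2` are always chromatically related. -/
theorem result : ¬ ∀ (U V : Type) [Finite U] [Finite V] [Nontrivial U] [Nontrivial V]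
    (F : SimpleGraph U) (G : SimpleGraph V),
    (∃ n : ℕ, 2 ≤ n ∧ RelatedAt n F G) → ∀ m : ℕ, 1 ≤ m → RelatedAt m F G := by
  intro h
  haveI : Nontrivial ((Fin 4 ⊕ Fin 7) ⊕ Pairs 65) :=
    ⟨⟨Sum.inl (Sum.inl 0), Sum.inl (Sum.inl 1), by simp⟩⟩
  exact not_related_three (h _ _ paw big ⟨2, le_rfl, related_two⟩ 3 (by norm_num))

end Pool.Agent.Results.MP_d44e62_co.TwoNotThree
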